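import Pool.Agent.SGD.Stmts

noncomputable section

namespace Pool.Agent.SGD.H92

open Pool.Agent.SGE Pool.Agent.SGP Pool.Agent.SGY Pool.Agent.SGD

theorem trk (h1 : Dp2Stmt) (h2 : SrnStmt) : TrkStmt := by
  intro n G c X r k₁ k₂ hT hX hY
  obtain ⟨e₁, hA, hB, hC, hD⟩ := h2 r hT.inj X (k₁ + 1) hX c
  obtain ⟨e, hA', hB', hC', hD'⟩ := h2 r hT.inj {y | y ∉ X ∧ y ≠ c} (k₂ + 1) hY c
  obtain ⟨e₂, he₂⟩ : ∃ e₂ : ℕ → Fin n, ∀ j, e₂ j = e (k₂ + 1 - j) := ⟨_, fun _ => rfl⟩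
  have e1X : ∀ i, i ≤ k₁ → e₁ i ∈ X := fun i hi => hA i (by omega)
  have e1c : e₁ (k₁ + 1) = c := hD _ (le_refl _)
  have e1XC : ∀ i, i ≤ k₁ + 1 → e₁ i ∈ X ∨ e₁ i = c := by
    intro i hi
    rcases Nat.lt_or_ge k₁ i with h | h
    · have : i = k₁ + 1 := by omega
      rw [this]
      exact Or.inr e1c
    · exact Or.inl (e1X i h)
  have e2Y : ∀ j, 1 ≤ j → j ≤ k₂ + 1 → e₂ j ∉ X ∧ e₂ j ≠ c := by
    intro j hj hj'
    rw [he₂]
    exact hA' _ (by omega)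
  have e2c : e₂ 0 = c := by
    rw [he₂]
    exact hD' _ (by omega)
  have e2X : ∀ j, j ≤ k₂ + 1 → e₂ j ∉ X := by
    intro j hj
    rcases Nat.eq_zero_or_pos j with h | h
    · rw [h, e2c]
      exact hT.cX
    · exact (e2Y j h hj).1
  have mono1 : ∀ i j, i < j → j ≤ k₁ + 1 → r (e₁ i) < r (e₁ j) := by
    intro i j hij hj
    rcases Nat.lt_or_ge k₁ j with h | h
    · have : j = k₁ + 1 := by omega
      rw [this, e1c]
      apply hT.top
      intro h3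
      apply hT.cX
      rw [← h3]
      exact e1X i (by omega)
    · exact hB i j hij (by omega)
  have mono2 : ∀ i j, i < j → j ≤ k₂ + 1 → r (e₂ j) < r (e₂ i) := by
    intro i j hij hj
    rcases Nat.eq_zero_or_pos i with h | h
    · rw [h, e2c]
      exact hT.top _ (e2Y j (by omega) hj).2
    · rw [he₂, he₂]
      exact hB' _ _ (by omega) (by omega)
  obtain ⟨D₁, hD₁⟩ := h1 k₁ (fun i j => G.Adj (e₁ i) (e₁ j)) (by
    intro i j l m hij hjl hlm hm h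
    exact hT.px (e₁ i) (e₁ j) (e₁ l) (e₁ m) (e1XC i (by omega)) (e1XC j (by omega))
      (e1XC l (by omega)) (e1XC m hm) (mono1 i j hij (by omega)) (mono1 j l hjl (by omega))
      (mono1 l m hlm hm) h)
  obtain ⟨D₂, hD₂⟩ := h1 k₂ (fun i j => G.Adj (e₂ i) (e₂ j)) (by
    intro i j l m hij hjl hlm hm h
    exact hT.py (e₂ m) (e₂ l) (e₂ j) (e₂ i) (e2X m hm) (e2X l (by omega)) (e2X j (by omega))
      (e2X i (by omega)) (mono2 l m hlm hm) (mono2 j l hjl (by omega)) (mono2 i j hij (by omega))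
      ⟨h.2.symm, h.1.symm⟩)
  have cov : ∀ v, v ∈ X → ∃ i, i ≤ k₁ ∧ e₁ i = v := by
    intro v hv
    obtain ⟨i, hi, h3⟩ := hC v hv
    exact ⟨i, by omega, h3⟩
  have cov2 : ∀ v, v ∉ X → v ≠ c → ∃ j, 1 ≤ j ∧ j ≤ k₂ + 1 ∧ e₂ j = v := by
    intro v hv hvc
    obtain ⟨i, hi, h3⟩ := hC' v ⟨hv, hvc⟩
    refine ⟨k₂ + 1 - i, by omega, by omega, ?_⟩
    rw [he₂]
    have : k₂ + 1 - (k₂ + 1 - i) = i := by omega
    rw [this]
    exact h3
  have inj1 : ∀ i j, i ≤ k₁ + 1 → j ≤ k₁ + 1 → e₁ i = e₁ j → i = j := by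
    intro i j hi hj hij
    rcases Nat.lt_trichotomy i j with h | h | h
    · have := mono1 i j h hj
      rw [hij] at this
      exact absurd this (lt_irrefl _)
    · exact h
    · have := mono1 j i h hi
      rw [hij] at this
      exact absurd this (lt_irrefl _)
  have inj2 : ∀ i j, i ≤ k₂ + 1 → j ≤ k₂ + 1 → e₂ i = e₂ j → i = j := by
    intro i j hi hj hij
    rcases Nat.lt_trichotomy i j with h | h | h
    · have := mono2 i j h hj
      rw [hij] at this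
      exact absurd this (lt_irrefl _)
    · exact h
    · have := mono2 j i h hi
      rw [hij] at this
      exact absurd this (lt_irrefl _)
  obtain ⟨S, hS⟩ : ∃ S : ℕ → ℕ → Prop, ∀ i j, S i j ↔
      i ≤ k₁ ∧ 1 ≤ j ∧ j ≤ k₂ + 1 ∧ G.Adj (e₁ i) (e₂ j) := ⟨_, fun _ _ => Iff.rfl⟩
  refine ⟨e₁, e₂, D₁, D₂, S, inj1, inj2, ?_, ?_, ?_, ?_, ?_⟩
  · rw [e1c, e2c]
  · intro i j hi hj hj' h
    have h3 := e1X i hi
    rw [h] at h3
    exact (e2Y j hj hj').1 h3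
  · intro v
    by_cases hv : v ∈ X
    · obtain ⟨i, hi, h3⟩ := cov v hv
      exact Or.inl ⟨i, by omega, h3⟩
    · by_cases hvc : v = c
      · exact Or.inl ⟨k₁ + 1, le_refl _, by rw [e1c, hvc]⟩
      · exact Or.inr (cov2 v hv hvc)
  · intro i j i' j' h3 h4 hii
    rw [hS] at h3 h4
    obtain ⟨a1, a2, a3, a4⟩ := h3
    obtain ⟨b1, b2, b3, b4⟩ := h4
    by_contra hlt
    have h5 := hT.xy (e₁ i) (e₁ i') (e₂ j) (e₂ j') (e1X i a1) (e1X i' b1) (e2Y j a2 a3).1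
      (e2Y j' b2 b3).1 (e2Y j a2 a3).2 (e2Y j' b2 b3).2 a4 b4 (mono1 i i' hii (by omega))
    have h6 := mono2 j j' (by omega) b3
    omega
  · -- the edges
    have hxx : ∀ i j, i ≤ k₁ + 1 → j ≤ k₁ + 1 → G.Adj (e₁ i) (e₁ j) →
        ∃ p q, XE k₁ k₂ D₁ D₂ S p q ∧ ((vt e₁ e₂ p = e₁ i ∧ vt e₁ e₂ q = e₁ j) ∨
          (vt e₁ e₂ p = e₁ j ∧ vt e₁ e₂ q = e₁ i)) := by
      intro i j hi hj hadj
      rcases Nat.lt_trichotomy i j with h | h | h
      · exact ⟨(false, i), (false, j), XE.xx h hj (hD₁ i j h hj hadj), Or.inl ⟨rfl, rfl⟩⟩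
      · rw [h] at hadj
        exact absurd hadj (G.loopless.irrefl _)
      · exact ⟨(false, j), (false, i), XE.xx h hi (hD₁ j i h hi hadj.symm), Or.inr ⟨rfl, rfl⟩⟩
    have hyy : ∀ i j, i ≤ k₂ + 1 → j ≤ k₂ + 1 → G.Adj (e₂ i) (e₂ j) →
        ∃ p q, XE k₁ k₂ D₁ D₂ S p q ∧ ((vt e₁ e₂ p = e₂ i ∧ vt e₁ e₂ q = e₂ j) ∨
          (vt e₁ e₂ p = e₂ j ∧ vt e₁ e₂ q = e₂ i)) := by
      intro i j hi hj hadj
      rcases Nat.lt_trichotomy i j with h | h | h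
      · exact ⟨(true, i), (true, j), XE.yy h hj (hD₂ i j h hj hadj), Or.inl ⟨rfl, rfl⟩⟩
      · rw [h] at hadj
        exact absurd hadj (G.loopless.irrefl _)
      · exact ⟨(true, j), (true, i), XE.yy h hi (hD₂ j i h hi hadj.symm), Or.inr ⟨rfl, rfl⟩⟩
    have hxy : ∀ i j, i ≤ k₁ → 1 ≤ j → j ≤ k₂ + 1 → G.Adj (e₁ i) (e₂ j) →
        XE k₁ k₂ D₁ D₂ S (false, i) (true, j) := by
      intro i j hi hj hj' hadj
      exact XE.xy hi hj hj' ((hS i j).2 ⟨hi, hj, hj', hadj⟩)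
    have covX : ∀ v, (v ∈ X ∨ v = c) → ∃ i, i ≤ k₁ + 1 ∧ e₁ i = v := by
      rintro v (hv | hv)
      · obtain ⟨i, hi, h3⟩ := cov v hv
        exact ⟨i, by omega, h3⟩
      · exact ⟨k₁ + 1, le_refl _, by rw [e1c, hv]⟩
    have covY : ∀ v, v ∉ X → ∃ j, j ≤ k₂ + 1 ∧ e₂ j = v := by
      intro v hv
      by_cases hvc : v = c
      · exact ⟨0, by omega, by rw [e2c, hvc]⟩
      · obtain ⟨j, _, hj', h3⟩ := cov2 v hv hvc
        exact ⟨j, hj', h3⟩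
    intro u v huv
    by_cases hu : u ∈ X
    · by_cases hv : v ∈ X ∨ v = c
      · obtain ⟨i, hi, rfl⟩ := covX u (Or.inl hu)
        obtain ⟨j, hj, rfl⟩ := covX v hv
        exact hxx i j hi hj huv
      · rw [not_or] at hv
        obtain ⟨i, hi, rfl⟩ := cov u hu
        obtain ⟨j, hj, hj', rfl⟩ := cov2 v hv.1 hv.2
        exact ⟨(false, i), (true, j), hxy i j hi hj hj' huv, Or.inl ⟨rfl, rfl⟩⟩
    · by_cases hv : v ∈ X
      · by_cases huc : u = c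
        · obtain ⟨i, hi, rfl⟩ := covX u (Or.inr huc)
          obtain ⟨j, hj, rfl⟩ := covX v (Or.inl hv)
          exact hxx i j hi hj huv
        · obtain ⟨i, hi, rfl⟩ := cov v hv
          obtain ⟨j, hj, hj', rfl⟩ := cov2 u hu huc
          exact ⟨(false, i), (true, j), hxy i j hi hj hj' huv.symm, Or.inr ⟨rfl, rfl⟩⟩
      · obtain ⟨i, hi, rfl⟩ := covY u hu
        obtain ⟨j, hj, rfl⟩ := covY v hv
        exact hyy i j hi hj huv

end Pool.Agent.SGD.H92
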